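import Mathlib

set_option autoImplicit false
set_option linter.unusedSectionVars false
set_option linter.style.haveILetI false

open Filter Topology Set Pointwise

universe u v

namespace Pool.Agent.Results.MP_ebea7e_gt.FreeAbelianSubgroup

/-- Every real function that is continuous on all compact sets is continuous. -/
def IsKR (X : Type u) [TopologicalSpace X] : Prop :=
  ∀ f : X → ℝ, (∀ K : Set X, IsCompact K → ContinuousOn f K) → Continuous f

/-- `t` is the finest group topology on the free abelian group on `X` inducing the topology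
of `X`. -/
structure IsFreeAbelianTopology {X : Type u} [tX : TopologicalSpace X]
    (t : TopologicalSpace (FreeAbelianGroup X)) : Prop where
  isTopologicalAddGroup : @IsTopologicalAddGroup (FreeAbelianGroup X) t _
  induced_eq : TopologicalSpace.induced (FreeAbelianGroup.of : X → FreeAbelianGroup X) t = tX
  finest : ∀ t' : TopologicalSpace (FreeAbelianGroup X),
    @IsTopologicalAddGroup (FreeAbelianGroup X) t' _ →
    TopologicalSpace.induced (FreeAbelianGroup.of : X → FreeAbelianGroup X) t' = tX → t ≤ t'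

section kw

/-- The topology determined by a sequence of subsets. -/
@[reducible] def kwTop {G : Type u} [TopologicalSpace G] (K : ℕ → Set G) : TopologicalSpace G where
  IsOpen U := ∀ n, ∀ x ∈ U, x ∈ K n → U ∈ 𝓝[K n] x
  isOpen_univ := fun n x _ _ => univ_mem
  isOpen_inter := fun U V hU hV n x hx hxn => inter_mem (hU n x hx.1 hxn) (hV n x hx.2 hxn)
  isOpen_sUnion := fun S hS n x hx hxn => by
    obtain ⟨U, hU, hxU⟩ := hx
    exact mem_of_superset (hS U hU n x hxU hxn) (subset_sUnion_of_mem hU)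

variable {G : Type u} [AddCommGroup G] [TopologicalSpace G] [IsTopologicalAddGroup G] [T2Space G]

theorem kw_translate (K : ℕ → Set G) (hU : ∀ x, ∃ n, x ∈ K n)
    (hadd : ∀ m n, ∀ x ∈ K m, ∀ y ∈ K n, x + y ∈ K (m + n)) (x0 : G) :
    @Continuous G G (kwTop K) (kwTop K) (fun y => x0 + y) := by
  refine @Continuous.mk _ _ (kwTop K) (kwTop K) _ fun U hUo => ?_
  intro n y hy hyn
  obtain ⟨m, hm⟩ := hU x0
  have h1 : U ∈ 𝓝[K (m + n)] (x0 + y) := hUo (m + n) (x0 + y) hy (hadd m n _ hm _ hyn)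
  have h2 : Tendsto (fun y => x0 + y) (𝓝[K n] y) (𝓝[K (m + n)] (x0 + y)) := by
    refine tendsto_nhdsWithin_of_tendsto_nhds_of_eventually_within _ ?_ ?_
    · exact ((continuous_const.add continuous_id).tendsto y).mono_left nhdsWithin_le_nhds
    · filter_upwards [self_mem_nhdsWithin] with z hz
      exact hadd m n _ hm _ hz
  exact h2 h1

theorem kw_neg (K : ℕ → Set G) (hneg : ∀ n, ∀ x ∈ K n, -x ∈ K n) :
    @Continuous G G (kwTop K) (kwTop K) (fun y => -y) := by
  refine @Continuous.mk _ _ (kwTop K) (kwTop K) _ fun U hUo => ?_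
  intro n y hy hyn
  have h1 : U ∈ 𝓝[K n] (-y) := hUo n (-y) hy (hneg n y hyn)
  have h2 : Tendsto (fun y => -y) (𝓝[K n] y) (𝓝[K n] (-y)) := by
    refine tendsto_nhdsWithin_of_tendsto_nhds_of_eventually_within _ ?_ ?_
    · exact ((continuous_neg).tendsto y).mono_left nhdsWithin_le_nhds
    · filter_upwards [self_mem_nhdsWithin] with z hz
      exact hneg n _ hz
  exact h2 h1

theorem kw_step (K : ℕ → Set G) (hK : ∀ n, IsCompact (K n)) (hm : Monotone K)
    (hadd : ∀ m n, ∀ x ∈ K m, ∀ y ∈ K n, x + y ∈ K (m + n)) (U : Set G)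
    (hUo : @IsOpen G (kwTop K) U) (n : ℕ) (C : Set G)
    (hC : C ⊆ K n ∧ IsCompact C ∧ ∀ a ∈ C, ∀ b ∈ C, a + b ∈ U) :
    ∃ C' : Set G, (C' ⊆ K (n + 1) ∧ IsCompact C' ∧ ∀ a ∈ C', ∀ b ∈ C', a + b ∈ U) ∧
      ∀ x ∈ C, C' ∈ 𝓝[K (n + 1)] x := by
  obtain ⟨hCK, hCc, hCU⟩ := hC
  have : CompactSpace (K (n + 1)) := isCompact_iff_compactSpace.1 (hK (n + 1))
  have hCK' : C ⊆ K (n + 1) := hCK.trans (hm (Nat.le_succ n))
  let CL : Set (K (n + 1)) := Subtype.val ⁻¹' C
  have hCL : IsCompact CL := (hCc.isClosed.preimage continuous_subtype_val).isCompact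
  let O : Set (K (n + 1) × K (n + 1)) := {p | (p.1 : G) + p.2 ∈ U}
  have hO : IsOpen O := by
    rw [isOpen_iff_mem_nhds]
    rintro ⟨a, b⟩ hab
    have h1 : (a : G) + b ∈ K ((n + 1) + (n + 1)) := hadd _ _ _ a.2 _ b.2
    have h2 : U ∈ 𝓝[K ((n + 1) + (n + 1))] ((a : G) + b) := hUo _ _ hab h1
    have h3 : Tendsto (fun p : K (n + 1) × K (n + 1) => (p.1 : G) + p.2) (𝓝 (a, b))
        (𝓝[K ((n + 1) + (n + 1))] ((a : G) + b)) := by
      refine tendsto_nhdsWithin_of_tendsto_nhds_of_eventually_within _ ?_ ?_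
      · exact Continuous.tendsto (by fun_prop) (a, b)
      · exact Eventually.of_forall fun p => hadd _ _ _ p.1.2 _ p.2.2
    exact h3 h2
  have hsub : CL ×ˢ CL ⊆ O := by
    rintro ⟨a, b⟩ ⟨ha, hb⟩
    exact hCU _ ha _ hb
  obtain ⟨u, v, hu, hv, hCu, hCv, huv⟩ := generalized_tube_lemma hCL hCL hO hsub
  obtain ⟨L, hL, hCL', hLuv⟩ := exists_compact_between hCL (hu.inter hv)
    (subset_inter hCu hCv)
  refine ⟨Subtype.val '' L, ⟨?_, hL.image continuous_subtype_val, ?_⟩, ?_⟩
  · rintro _ ⟨x, -, rfl⟩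
    exact x.2
  · rintro _ ⟨a, ha, rfl⟩ _ ⟨b, hb, rfl⟩
    have : (a, b) ∈ O := huv ⟨(hLuv ha).1, (hLuv hb).2⟩
    exact this
  · intro x hx
    have hxL : (⟨x, hCK' hx⟩ : K (n + 1)) ∈ interior L := hCL' hx
    have h4 : L ∈ 𝓝 (⟨x, hCK' hx⟩ : K (n + 1)) := mem_interior_iff_mem_nhds.1 hxL
    exact mem_nhds_subtype_iff_nhdsWithin.1 h4

theorem kw_add (K : ℕ → Set G) (hK : ∀ n, IsCompact (K n)) (hm : Monotone K)
    (h0 : (0 : G) ∈ K 0)
    (hadd : ∀ m n, ∀ x ∈ K m, ∀ y ∈ K n, x + y ∈ K (m + n)) (U : Set G)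
    (hUo : @IsOpen G (kwTop K) U) (hU0 : (0 : G) ∈ U) :
    ∃ V : Set G, @IsOpen G (kwTop K) V ∧ (0 : G) ∈ V ∧ ∀ a ∈ V, ∀ b ∈ V, a + b ∈ U := by
  let S : ℕ → Type u := fun n => {C : Set G // C ⊆ K n ∧ IsCompact C ∧
    ∀ a ∈ C, ∀ b ∈ C, a + b ∈ U}
  have hst : ∀ n (C : S n), ∃ C' : S (n + 1), ∀ x ∈ C.1, C'.1 ∈ 𝓝[K (n + 1)] x := by
    intro n C
    obtain ⟨C', h1, h2⟩ := kw_step K hK hm hadd U hUo n C.1 C.2
    exact ⟨⟨C', h1⟩, h2⟩
  choose nx hnx using hst
  let C0 : S 0 := ⟨{0}, by simpa using h0, isCompact_singleton, by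
    rintro a ha b hb
    rw [mem_singleton_iff] at ha hb
    rw [ha, hb, add_zero]
    exact hU0⟩
  obtain ⟨C, hC0, hC⟩ : ∃ C : (n : ℕ) → S n, C 0 = C0 ∧ ∀ n, C (n + 1) = nx n (C n) :=
    ⟨fun n => Nat.rec C0 (fun n E => nx n E) n, rfl, fun _ => rfl⟩
  have hnb : ∀ n, ∀ x ∈ (C n).1, (C (n + 1)).1 ∈ 𝓝[K (n + 1)] x := by
    intro n x hx
    rw [hC]
    exact hnx n (C n) x hx
  have hmono : Monotone fun n => (C n).1 := by
    refine monotone_nat_of_le_succ fun n x hx => ?_
    exact mem_of_mem_nhdsWithin (hm (Nat.le_succ n) ((C n).2.1 hx)) (hnb n x hx)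
  refine ⟨⋃ n, (C n).1, ?_, ?_, ?_⟩
  · intro m x hx hxm
    obtain ⟨n, hn⟩ := mem_iUnion.1 hx
    have h1 : x ∈ (C (max m n)).1 := hmono (le_max_right m n) hn
    have h2 := hnb _ x h1
    have h3 : (C (max m n + 1)).1 ∈ 𝓝[K m] x :=
      nhdsWithin_mono x (hm ((le_max_left m n).trans (Nat.le_succ _))) h2
    exact mem_of_superset h3 (subset_iUnion (fun n => (C n).1) _)
  · refine mem_iUnion.2 ⟨0, ?_⟩
    rw [hC0]
    exact mem_singleton _
  · intro a ha b hb
    obtain ⟨m, hm'⟩ := mem_iUnion.1 ha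
    obtain ⟨n, hn⟩ := mem_iUnion.1 hb
    exact (C (max m n)).2.2.2 a (hmono (le_max_left m n) hm') b (hmono (le_max_right m n) hn)

theorem kw_group (K : ℕ → Set G) (hK : ∀ n, IsCompact (K n)) (hm : Monotone K)
    (h0 : (0 : G) ∈ K 0) (hU : ∀ x, ∃ n, x ∈ K n)
    (hadd : ∀ m n, ∀ x ∈ K m, ∀ y ∈ K n, x + y ∈ K (m + n))
    (hneg : ∀ n, ∀ x ∈ K n, -x ∈ K n) :
    @IsTopologicalAddGroup G (kwTop K) _ := by
  have hc := kw_translate K hU hadd
  refine @IsTopologicalAddGroup.of_comm_of_nhds_zero G _ (kwTop K) ?_ ?_ ?_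
  · intro W hW
    rw [@mem_nhds_iff G (kwTop K)] at hW
    obtain ⟨U, hUW, hUo, hU0⟩ := hW
    obtain ⟨V, hVo, hV0, hV⟩ := kw_add K hK hm h0 hadd U hUo hU0
    have hVn : V ∈ @nhds G (kwTop K) 0 := @IsOpen.mem_nhds G (kwTop K) _ _ hVo hV0
    rw [Filter.mem_map]
    refine mem_of_superset (prod_mem_prod hVn hVn) ?_
    rintro ⟨a, b⟩ ⟨ha, hb⟩
    exact hUW (hV a ha b hb)
  · have h1 := (@Continuous.tendsto G G (kwTop K) (kwTop K) _ (kw_neg K hneg) 0)
    simpa using h1
  · intro x0
    symm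
    refine map_eq_of_inverse (fun y => -x0 + y) ?_ ?_ ?_
    · ext y
      simp
    · have h1 := (@Continuous.tendsto G G (kwTop K) (kwTop K) _ (hc x0) 0)
      simpa using h1
    · have h1 := (@Continuous.tendsto G G (kwTop K) (kwTop K) _ (hc (-x0)) x0)
      simpa using h1

end kw

section free

/-- The finest group topology on the free abelian group for which `of` is continuous. -/
@[reducible] def freeTop (X : Type u) [TopologicalSpace X] : TopologicalSpace (FreeAbelianGroup X) :=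
  sInf {t | @IsTopologicalAddGroup (FreeAbelianGroup X) t _ ∧
    @Continuous X (FreeAbelianGroup X) _ t FreeAbelianGroup.of}

attribute [local instance] freeTop

instance instTAG (X : Type u) [TopologicalSpace X] :
    IsTopologicalAddGroup (FreeAbelianGroup X) :=
  topologicalAddGroup_sInf fun _ ht => ht.1

theorem continuous_of (X : Type u) [TopologicalSpace X] :
    Continuous (FreeAbelianGroup.of : X → FreeAbelianGroup X) :=
  continuous_sInf_rng.2 fun _ ht => ht.2

theorem continuous_lift {X : Type u} [TopologicalSpace X] {G : Type v} [AddCommGroup G]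
    [TopologicalSpace G] [IsTopologicalAddGroup G] {h : X → G} (hh : Continuous h) :
    Continuous (FreeAbelianGroup.lift h) := by
  rw [continuous_iff_le_induced]
  refine sInf_le ⟨topologicalAddGroup_induced _, ?_⟩
  rw [continuous_induced_rng]
  have : (FreeAbelianGroup.lift h : FreeAbelianGroup X → G) ∘ FreeAbelianGroup.of = h := by
    ext x
    simp
  rw [this]
  exact hh

theorem continuous_map {X : Type u} [TopologicalSpace X] {Y : Type v} [TopologicalSpace Y]
    {h : X → Y} (hh : Continuous h) :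
    Continuous (FreeAbelianGroup.map h : FreeAbelianGroup X → FreeAbelianGroup Y) :=
  continuous_lift ((continuous_of Y).comp hh)

theorem exists_sep {X : Type u} [TopologicalSpace X] [T35Space X] {x : X} {C : Set X}
    (hC : IsClosed C) (hx : x ∉ C) : ∃ h : X → ℝ, Continuous h ∧ h x = 1 ∧ ∀ y ∈ C, h y = 0 := by
  obtain ⟨f, hf, hfx, hfC⟩ := CompletelyRegularSpace.completely_regular x C hC hx
  refine ⟨fun y => 1 - (f y : ℝ), by fun_prop, ?_, ?_⟩
  · show 1 - (f x : ℝ) = 1
    rw [hfx]; simp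
  · intro y hy
    show 1 - (f y : ℝ) = 0
    rw [hfC hy]; simp

theorem lift_apply_sum {X : Type u} {G : Type v} [AddCommGroup G] (h : X → G)
    (g : FreeAbelianGroup X) :
    FreeAbelianGroup.lift h g = ∑ x ∈ g.support, FreeAbelianGroup.coeff x g • h x := by
  conv_lhs => rw [FreeAbelianGroup.eq_sum_support_coeff_smul_of g]
  rw [map_sum]
  refine Finset.sum_congr rfl fun x _ => ?_
  rw [map_zsmul, FreeAbelianGroup.lift_apply_of]

theorem exists_lift_ne {X : Type u} [TopologicalSpace X] [T35Space X] {C : Set X}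
    (hC : IsClosed C) (g : FreeAbelianGroup X) {x : X} (hx : x ∈ g.support) (hxC : x ∉ C) :
    ∃ h : X → ℝ, Continuous h ∧ (∀ y ∈ C, h y = 0) ∧ FreeAbelianGroup.lift h g ≠ 0 := by
  classical
  obtain ⟨h, hc, h1, h0⟩ := exists_sep (x := x) (C := C ∪ ((g.support.erase x : Finset X) : Set X))
    (hC.union (Finset.finite_toSet _).isClosed) (by simp [hxC])
  refine ⟨h, hc, fun y hy => h0 y (Or.inl hy), ?_⟩
  rw [lift_apply_sum, Finset.sum_eq_single x]
  · rw [h1]
    have := (FreeAbelianGroup.mem_support_iff x g).1 hx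
    simpa using this
  · intro y hy hyx
    rw [h0 y (Or.inr (Finset.mem_coe.2 (Finset.mem_erase.2 ⟨hyx, hy⟩))), smul_zero]
  · intro h
    exact absurd hx h

instance instT2 (X : Type u) [TopologicalSpace X] [T35Space X] : T2Space (FreeAbelianGroup X) := by
  refine ⟨fun a b hab => ?_⟩
  have hne : a - b ≠ 0 := sub_ne_zero.2 hab
  obtain ⟨x, hx⟩ := FreeAbelianGroup.nonempty_support_iff.2 hne
  obtain ⟨h, hc, -, h1⟩ := exists_lift_ne isClosed_empty (a - b) hx (notMem_empty x)
  have h2 : FreeAbelianGroup.lift h a ≠ FreeAbelianGroup.lift h b := by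
    intro h3
    apply h1
    rw [map_sub, h3, sub_self]
  obtain ⟨u, v, hu, hv, hau, hbv, huv⟩ := t2_separation h2
  exact ⟨_, _, hu.preimage (continuous_lift hc), hv.preimage (continuous_lift hc), hau, hbv,
    huv.preimage _⟩

theorem isFreeAbelianTopology (X : Type u) [tX : TopologicalSpace X] [T35Space X] :
    IsFreeAbelianTopology (freeTop X) := by
  refine ⟨instTAG X, ?_, ?_⟩
  · apply le_antisymm
    · refine le_of_nhds_le_nhds fun x => ?_
      rw [nhds_induced]
      intro U hU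
      obtain ⟨V, hVU, hVo, hxV⟩ := mem_nhds_iff.1 hU
      obtain ⟨h, hc, h1, h0⟩ := exists_sep (x := x) (C := Vᶜ) hVo.isClosed_compl (by simpa using hxV)
      refine mem_comap.2 ⟨{g | (1 / 2 : ℝ) < FreeAbelianGroup.lift h g}, ?_, ?_⟩
      · refine (isOpen_lt continuous_const (continuous_lift hc)).mem_nhds ?_
        simp only [mem_ofPred_eq, FreeAbelianGroup.lift_apply_of, h1]
        norm_num
      · intro y hy
        simp only [mem_preimage, mem_ofPred_eq, FreeAbelianGroup.lift_apply_of] at hy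
        by_contra hyU
        have : y ∈ Vᶜ := fun hyV => hyU (hVU hyV)
        rw [h0 y this] at hy
        norm_num at hy
    · exact continuous_iff_le_induced.1 (continuous_of X)
  · intro t' h1 h2
    refine sInf_le ⟨h1, ?_⟩
    rw [continuous_iff_le_induced, h2]

/-- Iterated sums of a set. -/
def Ks {G : Type u} [AddCommGroup G] (S : Set G) : ℕ → Set G
  | 0 => {0}
  | (n + 1) => Ks S n + S

theorem Ks_compact {G : Type u} [AddCommGroup G] [TopologicalSpace G] [IsTopologicalAddGroup G]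
    {S : Set G} (hS : IsCompact S) (n : ℕ) : IsCompact (Ks S n) := by
  induction n with
  | zero => exact isCompact_singleton
  | succ n ih => exact ih.add hS

theorem Ks_mono {G : Type u} [AddCommGroup G] {S : Set G} (h0 : (0 : G) ∈ S) :
    Monotone (Ks S) := by
  refine monotone_nat_of_le_succ fun n x hx => ?_
  exact ⟨x, hx, 0, h0, add_zero x⟩

theorem Ks_add {G : Type u} [AddCommGroup G] {S : Set G} (m n : ℕ) :
    ∀ x ∈ Ks S m, ∀ y ∈ Ks S n, x + y ∈ Ks S (m + n) := by
  induction n with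
  | zero =>
    intro x hx y hy
    rw [show y = 0 from hy, add_zero x]
    exact hx
  | succ n ih =>
    rintro x hx _ ⟨y, hy, s, hs, rfl⟩
    exact ⟨x + y, ih x hx y hy, s, hs, add_assoc x y s⟩

theorem Ks_neg {G : Type u} [AddCommGroup G] {S : Set G} (hS : ∀ s ∈ S, -s ∈ S) (n : ℕ) :
    ∀ x ∈ Ks S n, -x ∈ Ks S n := by
  induction n with
  | zero =>
    intro x hx
    rw [show x = 0 from hx, neg_zero]
    exact rfl
  | succ n ih =>
    rintro _ ⟨y, hy, s, hs, rfl⟩
    exact ⟨-y, ih y hy, -s, hS s hs, (neg_add y s).symm⟩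

theorem isKR_compact (C : Type u) [TopologicalSpace C] [CompactSpace C] [T2Space C] :
    IsKR (FreeAbelianGroup C) := by
  intro f hf
  let S : Set (FreeAbelianGroup C) := {0} ∪ (range FreeAbelianGroup.of ∪
    range (fun x => -FreeAbelianGroup.of x))
  have hSc : IsCompact S := isCompact_singleton.union
    ((isCompact_range (continuous_of C)).union (isCompact_range (continuous_of C).neg))
  have h0S : (0 : FreeAbelianGroup C) ∈ S := Or.inl rfl
  have hSn : ∀ s ∈ S, -s ∈ S := by
    rintro s (hs | ⟨x, rfl⟩ | ⟨x, rfl⟩)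
    · rw [show s = 0 from hs, neg_zero]; exact h0S
    · exact Or.inr (Or.inr ⟨x, rfl⟩)
    · exact Or.inr (Or.inl ⟨x, (neg_neg _).symm⟩)
  have h1S : ∀ s ∈ S, s ∈ Ks S 1 := fun s hs => ⟨0, rfl, s, hs, zero_add s⟩
  have hcov : ∀ g : FreeAbelianGroup C, ∃ n, g ∈ Ks S n := by
    intro g
    induction g using FreeAbelianGroup.induction_on with
    | zero => exact ⟨0, rfl⟩
    | of x => exact ⟨1, h1S _ (Or.inr (Or.inl ⟨x, rfl⟩))⟩
    | neg x _ => exact ⟨1, h1S _ (Or.inr (Or.inr ⟨x, rfl⟩))⟩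
    | add x y hx hy =>
      obtain ⟨m, hm⟩ := hx
      obtain ⟨n, hn⟩ := hy
      exact ⟨m + n, Ks_add m n _ hm _ hn⟩
  have hgr := kw_group (Ks S) (Ks_compact hSc) (Ks_mono h0S) rfl hcov Ks_add (Ks_neg hSn)
  have hle : freeTop C ≤ kwTop (Ks S) := by
    refine sInf_le ⟨hgr, ?_⟩
    refine @Continuous.mk _ _ _ (kwTop (Ks S)) _ fun U hU => ?_
    rw [isOpen_iff_mem_nhds]
    intro x hx
    have hx1 : ∀ x : C, FreeAbelianGroup.of x ∈ Ks S 1 := fun x =>
      h1S _ (Or.inr (Or.inl ⟨x, rfl⟩))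
    have h2 := hU 1 _ hx (hx1 x)
    have h3 : Tendsto (FreeAbelianGroup.of : C → FreeAbelianGroup C) (𝓝 x)
        (𝓝[Ks S 1] (FreeAbelianGroup.of x)) :=
      tendsto_nhdsWithin_of_tendsto_nhds_of_eventually_within _ ((continuous_of C).tendsto x)
        (Eventually.of_forall hx1)
    exact h3 h2
  refine Continuous.mk fun V hV => ?_
  apply hle
  intro n x hx hxn
  exact hf _ (Ks_compact hSc n) x hxn (hV.mem_nhds hx)

end free

section space

attribute [local instance] freeTop

/-- Integer combinations of points with prescribed coefficients. -/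
def shape {X : Type u} {n : ℕ} (c : Fin n → ℤ) (x : Fin n → X) : FreeAbelianGroup X :=
  ∑ j, c j • FreeAbelianGroup.of (x j)

theorem exists_shape {X : Type u} (g : FreeAbelianGroup X) :
    ∃ (n : ℕ) (c : Fin n → ℤ) (x : Fin n → X), g = shape c x := by
  classical
  let e := g.support.equivFin.symm
  refine ⟨g.support.card, fun j => FreeAbelianGroup.coeff (e j).1 g, fun j => (e j).1, ?_⟩
  conv_lhs => rw [FreeAbelianGroup.eq_sum_support_coeff_smul_of g]
  unfold shape
  rw [← Finset.sum_coe_sort g.support]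
  exact (Equiv.sum_comp e
    (fun x : g.support => FreeAbelianGroup.coeff x.1 g • FreeAbelianGroup.of x.1)).symm

theorem map_shape {X : Type u} {Y : Type v} (h : X → Y) {n : ℕ} (c : Fin n → ℤ) (x : Fin n → X) :
    FreeAbelianGroup.map h (shape c x) = shape c (fun j => h (x j)) := by
  unfold shape
  rw [map_sum]
  refine Finset.sum_congr rfl fun j _ => ?_
  rw [map_zsmul]
  rfl

theorem continuous_shape {X : Type u} [TopologicalSpace X] {n : ℕ} (c : Fin n → ℤ) :
    Continuous (shape c : (Fin n → X) → FreeAbelianGroup X) := by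
  unfold shape
  refine continuous_finsetSum _ fun j _ => ?_
  exact ((continuous_of X).comp (continuous_apply j)).const_smul (c j)

variable {W : Type u} [LinearOrder W] [TopologicalSpace W] [OrderTopology W] [OrderTop W]
  [CompactSpace W] {Z : Type v} [TopologicalSpace Z] [CompactSpace Z] [T2Space Z]

/-- The space `(W minus its top) x Z` together with `{top} x Y`. -/
abbrev XX (W : Type u) [LinearOrder W] [OrderTop W] {Z : Type v} (Y : Set Z) : Type (max u v) :=
  {x : W × Z // x.1 < ⊤ ∨ x.2 ∈ Y}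

/-- Truncation at `b`. -/
def tr {Y : Set Z} (b : W) (x : XX W Y) : XX W Y :=
  ⟨(min x.1.1 b, x.1.2), x.2.imp (fun h => (min_le_left _ _).trans_lt h) id⟩

theorem continuous_tr {Y : Set Z} : Continuous (fun p : W × XX W Y => tr p.1 p.2) := by
  unfold tr
  refine Continuous.subtype_mk ?_ _
  exact ((continuous_fst.comp (continuous_subtype_val.comp continuous_snd)).min
    continuous_fst).prodMk (continuous_snd.comp (continuous_subtype_val.comp continuous_snd))

theorem tr_top {Y : Set Z} (x : XX W Y) : tr ⊤ x = x := by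
  apply Subtype.ext
  simp [tr]

theorem tr_tr {Y : Set Z} (a b : W) (hab : a ≤ b) (x : XX W Y) : tr a (tr b x) = tr a x := by
  apply Subtype.ext
  simp [tr, min_assoc, hab]

/-- The properties of the long segment that are used. -/
structure Long (W : Type u) [LinearOrder W] [OrderTop W] : Prop where
  bdd : ∀ s : ℕ → W, (∀ n, s n < ⊤) → ∃ b < ⊤, ∀ n, s n ≤ b
  lim : ∀ a : W, a < ⊤ → ∃ b, a < b ∧ b < ⊤
  ne : ∃ a : W, a < ⊤

theorem Long.bdd' (hW : Long W) {ι : Type*} [Countable ι] [Nonempty ι] (s : ι → W)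
    (hs : ∀ n, s n < ⊤) : ∃ b < ⊤, ∀ n, s n ≤ b := by
  obtain ⟨f, hf⟩ := exists_surjective_nat ι
  obtain ⟨b, hb, h⟩ := hW.bdd (fun n => s (f n)) fun n => hs _
  refine ⟨b, hb, fun n => ?_⟩
  obtain ⟨m, rfl⟩ := hf n
  exact h m

theorem Long.eventually_const (hW : Long W) (h : W → ℝ) (hc : Continuous h) :
    ∃ b < ⊤, ∀ c, b ≤ c → h c = h ⊤ := by
  have h1 : ∀ n : ℕ, ∃ l < (⊤ : W), Ioc l ⊤ ⊆ {c | |h c - h ⊤| < 1 / ((n : ℝ) + 1)} := by
    intro n
    refine exists_Ioc_subset_of_mem_nhds ?_ hW.ne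
    have h2 : IsOpen {c | |h c - h ⊤| < 1 / ((n : ℝ) + 1)} :=
      isOpen_lt (by fun_prop) continuous_const
    refine h2.mem_nhds ?_
    simp only [mem_ofPred_eq, sub_self, abs_zero]
    positivity
  choose l hl1 hl2 using h1
  obtain ⟨b, hb, hlb⟩ := hW.bdd l hl1
  obtain ⟨b', hbb', hb'⟩ := hW.lim b hb
  refine ⟨b', hb', fun c hc => ?_⟩
  rw [← sub_eq_zero, ← abs_nonpos_iff]
  refine le_of_forall_pos_le_add fun e he => ?_
  obtain ⟨n, hn⟩ := exists_nat_one_div_lt he
  have h3 : c ∈ Ioc (l n) ⊤ := ⟨(hlb n).trans_lt (hbb'.trans_le hc), le_top⟩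
  have h4 := hl2 n h3
  simp only [mem_ofPred_eq] at h4
  linarith

theorem continuous_orbit {Y : Set Z} (g : FreeAbelianGroup (XX W Y)) :
    Continuous (fun b : W => FreeAbelianGroup.map (tr b : XX W Y → XX W Y) g) := by
  obtain ⟨n, c, x, rfl⟩ := exists_shape g
  simp only [map_shape]
  refine (continuous_shape c).comp (continuous_pi fun j => ?_)
  exact continuous_tr.comp (continuous_id.prodMk continuous_const)

/-- All points up to level `b` form a compact set. -/
theorem compact_level {Y : Set Z} {b : W} (hb : b < ⊤) :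
    IsCompact {x : XX W Y | x.1.1 ≤ b} := by
  rw [Subtype.isCompact_iff]
  have h1 : IsCompact {p : W × Z | p.1 ≤ b} :=
    (isClosed_le continuous_fst continuous_const).isCompact
  convert h1 using 1
  ext p
  constructor
  · rintro ⟨x, hx, rfl⟩
    exact hx
  · intro hp
    exact ⟨⟨p, Or.inl (lt_of_le_of_lt hp hb)⟩, hp, rfl⟩

/-- The relation used in the pigeonhole argument. -/
def PP {Y : Set Z} (f : FreeAbelianGroup (XX W Y) → ℝ) (a : W)
    (c : (Σ n : ℕ, (Fin n → ℤ)) × ℕ) : Prop :=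
  ∃ b, a ≤ b ∧ b < ⊤ ∧ ∃ x : Fin c.1.1 → XX W Y, (∀ j, (x j).1.1 ≤ b) ∧
    1 / ((c.2 : ℝ) + 1) ≤ |f (shape c.1.2 x) - f (shape c.1.2 (fun j => tr a (x j)))|

theorem exists_PP (hW : Long W) {Y : Set Z} (f : FreeAbelianGroup (XX W Y) → ℝ)
    (hf : ∀ K : Set (FreeAbelianGroup (XX W Y)), IsCompact K → ContinuousOn f K) {a : W}
    (ha : a < ⊤) (hg : ∃ g, f g ≠ f (FreeAbelianGroup.map (tr a) g)) : ∃ c, PP f a c := by
  obtain ⟨g, hg⟩ := hg
  have h1 : Continuous (fun b : W => f (FreeAbelianGroup.map (tr b : XX W Y → XX W Y) g)) := by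
    have h2 := hf _ (isCompact_range (continuous_orbit g))
    exact h2.comp_continuous (continuous_orbit g) fun b => mem_range_self b
  obtain ⟨b0, hb0, hb⟩ := hW.eventually_const _ h1
  set b := max a b0 with hbdef
  have hbt : b < ⊤ := max_lt ha hb0
  have h3 : f (FreeAbelianGroup.map (tr b) g) = f g := by
    rw [hb b (le_max_right _ _)]
    congr 1
    obtain ⟨n, c, x, rfl⟩ := exists_shape g
    rw [map_shape]
    congr 1
    funext j
    exact tr_top _
  obtain ⟨n, c, x, rfl⟩ := exists_shape g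
  rw [map_shape] at h3 hg
  have h4 : 0 < |f (shape c fun j => tr b (x j)) - f (shape c fun j => tr a (tr b (x j)))| := by
    rw [abs_pos, sub_ne_zero, h3]
    simp only [tr_tr a b (le_max_left _ _)]
    exact hg
  obtain ⟨k, hk⟩ := exists_nat_one_div_lt h4
  exact ⟨⟨⟨n, c⟩, k⟩, b, le_max_left _ _, hbt, fun j => tr b (x j), fun j => min_le_right _ _,
    hk.le⟩

theorem exists_const (hW : Long W) {Y : Set Z} (f : FreeAbelianGroup (XX W Y) → ℝ)
    (hf : ∀ K : Set (FreeAbelianGroup (XX W Y)), IsCompact K → ContinuousOn f K) :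
    ∃ a < ⊤, ∀ g, f g = f (FreeAbelianGroup.map (tr a) g) := by
  by_contra hcon
  push Not at hcon
  have h1 : ∀ a : W, a < ⊤ → ∃ c, PP f a c := fun a ha => exists_PP hW f hf ha (hcon a ha)
  have h2 : ∃ c, ∀ a : W, a < ⊤ → ∃ a', a ≤ a' ∧ a' < ⊤ ∧ PP f a' c := by
    by_contra hc
    push Not at hc
    choose s hs1 hs2 using hc
    have : Nonempty ((Σ n : ℕ, (Fin n → ℤ)) × ℕ) := ⟨⟨⟨0, fun _ => 0⟩, 0⟩⟩
    obtain ⟨b, hb, hsb⟩ := hW.bdd' s hs1
    obtain ⟨c, hc⟩ := h1 b hb
    exact hs2 c b (hsb c) hb hc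
  obtain ⟨⟨⟨n, c⟩, k⟩, hc⟩ := h2
  choose! A hA1 hA2 hA3 using hc
  choose! B hB1 hB2 X hX1 hX2 using hA3
  obtain ⟨w0, hw0⟩ := hW.ne
  obtain ⟨s, hs0, hs⟩ : ∃ s : ℕ → {w : W // w < ⊤}, s 0 = ⟨w0, hw0⟩ ∧
      ∀ i, s (i + 1) = ⟨B (s i).1, hB2 _ (s i).2⟩ :=
    ⟨fun i => Nat.rec ⟨w0, hw0⟩ (fun _ E => ⟨B E.1, hB2 _ E.2⟩) i, rfl, fun _ => rfl⟩
  let α : ℕ → W := fun i => A (s i).1
  have hα : ∀ i, α i < ⊤ := fun i => hA2 _ (s i).2
  have hBα : ∀ i, B (s i).1 ≤ α (i + 1) := fun i => by
    have h3 := hA1 _ (s (i + 1)).2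
    have h4 : (s (i + 1)).1 = B (s i).1 := by rw [hs]
    show B (s i).1 ≤ A (s (i + 1)).1
    rw [← h4]
    exact h3
  have hαm : Monotone α := monotone_nat_of_le_succ fun i =>
    (hB1 _ (s i).2).trans (hBα i)
  let x : ℕ → Fin n → XX W Y := fun i => X (s i).1 (s i).2
  have hx1 : ∀ i j, (x i j).1.1 ≤ α (i + 1) := fun i j => (hX1 _ (s i).2 j).trans (hBα i)
  have hx2 : ∀ i, 1 / ((k : ℝ) + 1) ≤ |f (shape c (x i)) - f (shape c (fun j => tr (α i) (x i j)))| :=
    fun i => hX2 _ (s i).2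
  obtain ⟨b, hb, hαb⟩ := hW.bdd α hα
  let U : Ultrafilter ℕ := Ultrafilter.of atTop
  have hU : (U : Filter ℕ) ≤ atTop := Ultrafilter.of_le atTop
  obtain ⟨a, -, ha⟩ := isCompact_univ.ultrafilter_le_nhds (U.map α) (by simp)
  have ha' : Tendsto α U (𝓝 a) := ha
  have haα : ∀ i, α i ≤ a := by
    intro i
    refine ge_of_tendsto ha' ?_
    have : ∀ᶠ m in (U : Filter ℕ), i ≤ m := hU (eventually_ge_atTop i)
    filter_upwards [this] with m hm
    exact hαm hm
  have hab : a ≤ b := le_of_tendsto ha' (Eventually.of_forall hαb)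
  have hL : IsCompact {y : Fin n → XX W Y | ∀ j, y j ∈ {z : XX W Y | z.1.1 ≤ b}} :=
    isCompact_pi_infinite fun _ => compact_level hb
  have hxL : ∀ i, x i ∈ {y : Fin n → XX W Y | ∀ j, y j ∈ {z : XX W Y | z.1.1 ≤ b}} :=
    fun i j => (hx1 i j).trans (hαb _)
  obtain ⟨y, hyL, hy⟩ := hL.ultrafilter_le_nhds (U.map x)
    (by
      rw [le_principal_iff]
      show ∀ᶠ i in (U : Filter ℕ), x i ∈ _
      exact Eventually.of_forall hxL)
  have hy' : Tendsto x U (𝓝 y) := hy
  have hya : ∀ j, (y j).1.1 ≤ a := by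
    intro j
    have h50 : Continuous (fun y : Fin n → XX W Y => (y j).1.1) :=
      continuous_fst.comp (continuous_subtype_val.comp (continuous_apply j))
    have h5 : Tendsto (fun i => (x i j).1.1) U (𝓝 (y j).1.1) := (h50.tendsto y).comp hy'
    exact le_of_tendsto h5 (Eventually.of_forall fun i => (hx1 i j).trans (haα _))
  have hty : (fun j => tr a (y j)) = y := by
    funext j
    apply Subtype.ext
    simp [tr, hya j]
  have htr : Tendsto (fun i => fun j => tr (α i) (x i j)) U (𝓝 y) := by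
    rw [← hty]
    rw [tendsto_pi_nhds]
    intro j
    have h6 : Tendsto (fun i => (α i, x i j)) U (𝓝 (a, y j)) :=
      ha'.prodMk_nhds (((continuous_apply j).tendsto y).comp hy')
    exact (continuous_tr.tendsto (a, y j)).comp h6
  have htrL : ∀ i, (fun j => tr (α i) (x i j)) ∈
      {y : Fin n → XX W Y | ∀ j, y j ∈ {z : XX W Y | z.1.1 ≤ b}} :=
    fun i j => (min_le_left _ _).trans (hxL i j)
  have hfc : ContinuousOn (fun y => f (shape c y))
      {y : Fin n → XX W Y | ∀ j, y j ∈ {z : XX W Y | z.1.1 ≤ b}} := by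
    refine (hf _ (hL.image (continuous_shape c))).comp (continuous_shape c).continuousOn ?_
    exact mapsTo_image _ _
  have h7 : Tendsto (fun i => f (shape c (x i))) U (𝓝 (f (shape c y))) :=
    (hfc y hyL).tendsto.comp (tendsto_nhdsWithin_iff.2 ⟨hy', Eventually.of_forall hxL⟩)
  have h8 : Tendsto (fun i => f (shape c (fun j => tr (α i) (x i j)))) U (𝓝 (f (shape c y))) :=
    (hfc y hyL).tendsto.comp (tendsto_nhdsWithin_iff.2 ⟨htr, Eventually.of_forall htrL⟩)
  have h9 := (h7.sub h8).abs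
  rw [sub_self, abs_zero] at h9
  have h10 : 1 / ((k : ℝ) + 1) ≤ 0 := ge_of_tendsto h9 (Eventually.of_forall hx2)
  have h11 : 0 < 1 / ((k : ℝ) + 1) := by positivity
  linarith

theorem isKR_free (hW : Long W) {Y : Set Z} : IsKR (FreeAbelianGroup (XX W Y)) := by
  intro f hf
  obtain ⟨a, ha, h⟩ := exists_const hW f hf
  have : CompactSpace (Iic a) := isCompact_iff_compactSpace.1 isClosed_Iic.isCompact
  let ret : XX W Y → Iic a × Z := fun x => (⟨min x.1.1 a, min_le_right _ _⟩, x.1.2)
  let j : Iic a × Z → XX W Y := fun p => ⟨(p.1.1, p.2), Or.inl (lt_of_le_of_lt p.1.2 ha)⟩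
  have hret : Continuous ret := by
    refine Continuous.prodMk (Continuous.subtype_mk ?_ _) ?_
    · exact (continuous_fst.comp continuous_subtype_val).min continuous_const
    · exact continuous_snd.comp continuous_subtype_val
  have hj : Continuous j := by
    refine Continuous.subtype_mk ?_ _
    exact (continuous_subtype_val.comp continuous_fst).prodMk continuous_snd
  have h1 : Continuous (fun g => f (FreeAbelianGroup.map j g)) := by
    refine isKR_compact (Iic a × Z) _ fun K hK => ?_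
    exact (hf _ (hK.image (continuous_map hj))).comp (continuous_map hj).continuousOn
      (mapsTo_image _ _)
  have h2 : f = (fun g => f (FreeAbelianGroup.map j g)) ∘ (FreeAbelianGroup.map ret) := by
    funext g
    rw [h g]
    show _ = f (FreeAbelianGroup.map j (FreeAbelianGroup.map ret g))
    obtain ⟨n, c, x, rfl⟩ := exists_shape g
    rw [map_shape, map_shape, map_shape]
    rfl
  rw [h2]
  exact h1.comp (continuous_map hret)

end space

section sub

attribute [local instance] freeTop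

/-- The principal ultrafilters and one nonprincipal ultrafilter. -/
def Yp : Set (Ultrafilter ℕ) := range pure ∪ {hyperfilter ℕ}

variable {W : Type u} [LinearOrder W] [TopologicalSpace W] [OrderTopology W] [OrderTop W]
  [CompactSpace W]

/-- A point at the top level. -/
def pt (u : Yp) : XX W Yp := ⟨(⊤, u.1), Or.inr u.2⟩

/-- The natural number `n` as a point at the top level. -/
def ptn (n : ℕ) : XX W Yp := pt ⟨pure n, Or.inl ⟨n, rfl⟩⟩

/-- The nonprincipal ultrafilter as a point at the top level. -/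
noncomputable def ptp : XX W Yp := pt ⟨hyperfilter ℕ, Or.inr rfl⟩

theorem eq_pt (x : XX W Yp) (hx : x.1.1 = ⊤) : (∃ n, x = ptn n) ∨ x = ptp := by
  rcases x with ⟨⟨w, z⟩, h⟩
  simp only at hx
  subst hx
  rcases h with h | ⟨n, hn⟩ | h
  · exact absurd h (lt_irrefl _)
  · have h' : z = pure n := hn.symm
    subst h'
    exact Or.inl ⟨n, rfl⟩
  · have h' : z = hyperfilter ℕ := h
    subst h'
    exact Or.inr rfl

/-- The closed subgroup. -/
def Hs (W : Type u) [LinearOrder W] [TopologicalSpace W] [OrderTop W] :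
    AddSubgroup (FreeAbelianGroup (XX W Yp)) where
  carrier := {g | ∀ h : XX W Yp → ℝ, Continuous h → (∀ x, x.1.1 = ⊤ → h x = 0) →
    FreeAbelianGroup.lift h g = 0}
  add_mem' := fun {a b} ha hb h hc h0 => by rw [map_add, ha h hc h0, hb h hc h0, add_zero]
  zero_mem' := fun h _ _ => map_zero _
  neg_mem' := fun {a} ha h hc h0 => by rw [map_neg, ha h hc h0, neg_zero]

theorem isClosed_Hs : IsClosed (Hs W : Set (FreeAbelianGroup (XX W Yp))) := by
  have h1 : (Hs W : Set (FreeAbelianGroup (XX W Yp))) = ⋂ (h : XX W Yp → ℝ) (_ : Continuous h)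
      (_ : ∀ x, x.1.1 = ⊤ → h x = 0), {g | FreeAbelianGroup.lift h g = 0} := by
    ext g
    simp only [mem_iInter]
    exact Iff.rfl
  rw [h1]
  exact isClosed_iInter fun h => isClosed_iInter fun hc => isClosed_iInter fun _ =>
    isClosed_eq (continuous_lift hc) continuous_const

theorem of_pt_mem (u : Yp) : FreeAbelianGroup.of (pt u : XX W Yp) ∈ Hs W := by
  intro h _ h0
  rw [FreeAbelianGroup.lift_apply_of]
  exact h0 _ rfl

theorem support_Hs {g : FreeAbelianGroup (XX W Yp)} (hg : g ∈ Hs W) {x : XX W Yp}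
    (hx : x ∈ g.support) : x.1.1 = ⊤ := by
  by_contra hne
  have hC : IsClosed {x : XX W Yp | x.1.1 = ⊤} :=
    isClosed_eq (continuous_fst.comp continuous_subtype_val) continuous_const
  obtain ⟨h, hc, h0, h1⟩ := exists_lift_ne hC g hx hne
  exact h1 (hg h hc h0)

/-- The parametrisation of the closed subgroup. -/
noncomputable def Phi (W : Type u) [LinearOrder W] [TopologicalSpace W] [OrderTop W] :
    FreeAbelianGroup ℕ × ℤ →+ FreeAbelianGroup (XX W Yp) :=
  (FreeAbelianGroup.map ptn).coprod (zmultiplesHom _ (FreeAbelianGroup.of ptp))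

theorem Phi_apply (g : FreeAbelianGroup ℕ) (m : ℤ) : Phi W (g, m) =
    FreeAbelianGroup.map ptn g + m • FreeAbelianGroup.of ptp := by
  simp [Phi]

theorem exists_rep {g : FreeAbelianGroup (XX W Yp)} (hg : g ∈ Hs W) :
    ∃ (g' : FreeAbelianGroup ℕ) (m : ℤ), g = Phi W (g', m) := by
  have h1 : g ∈ (Phi W).range := by
    rw [FreeAbelianGroup.eq_sum_support_coeff_smul_of g]
    refine AddSubgroup.sum_mem _ fun x hx => AddSubgroup.zsmul_mem _ ?_ _
    rcases eq_pt x (support_Hs hg hx) with ⟨n, rfl⟩ | rfl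
    · refine ⟨(FreeAbelianGroup.of n, 0), ?_⟩
      rw [Phi_apply, zero_smul, add_zero, FreeAbelianGroup.map_of_apply]
    · refine ⟨(0, 1), ?_⟩
      rw [Phi_apply, map_zero, zero_add, one_smul]
  obtain ⟨⟨g', m⟩, h⟩ := h1
  exact ⟨g', m, h.symm⟩

open Classical in
/-- The characteristic functions. -/
noncomputable def chi (W : Type u) [LinearOrder W] [TopologicalSpace W] [OrderTop W] (A : Set ℕ)
    (x : XX W Yp) : ℤ := if A ∈ x.1.2 then 1 else 0

theorem continuous_chi (A : Set ℕ) : Continuous (chi W A) := by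
  rw [continuous_discrete_rng]
  intro b
  have h1 : IsClopen {x : XX W Yp | A ∈ x.1.2} :=
    ⟨(ultrafilter_isClosed_basic A).preimage (continuous_snd.comp continuous_subtype_val),
      (ultrafilter_isOpen_basic A).preimage (continuous_snd.comp continuous_subtype_val)⟩
  by_cases hb1 : b = 1
  · subst hb1
    convert h1.isOpen using 1
    ext x
    simp [chi]
  · by_cases hb0 : b = 0
    · subst hb0
      convert h1.compl.isOpen using 1
      ext x
      simp [chi]
    · convert isOpen_empty using 1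
      ext x
      simp only [mem_preimage, mem_singleton_iff, mem_empty_iff_false, iff_false, chi]
      split_ifs
      · exact fun h => hb1 h.symm
      · exact fun h => hb0 h.symm

open Classical in
theorem lift_chi_Phi (A : Set ℕ) (g : FreeAbelianGroup ℕ) (m : ℤ) :
    FreeAbelianGroup.lift (chi W A) (Phi W (g, m)) =
      (∑ n ∈ g.support, FreeAbelianGroup.coeff n g * (if n ∈ A then 1 else 0)) +
        m * (if A ∈ hyperfilter ℕ then 1 else 0) := by
  rw [Phi_apply, map_add, map_zsmul, FreeAbelianGroup.lift_apply_of]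
  congr 1
  conv_lhs => rw [FreeAbelianGroup.eq_sum_support_coeff_smul_of g]
  rw [map_sum, map_sum]
  refine Finset.sum_congr rfl fun n _ => ?_
  rw [map_zsmul, map_zsmul, FreeAbelianGroup.map_of_apply, FreeAbelianGroup.lift_apply_of]
  rfl

theorem lift_chi_singleton (n : ℕ) (g : FreeAbelianGroup ℕ) (m : ℤ) :
    FreeAbelianGroup.lift (chi W {n}) (Phi W (g, m)) = FreeAbelianGroup.coeff n g := by
  classical
  rw [lift_chi_Phi]
  have h1 : ({n} : Set ℕ) ∉ hyperfilter ℕ := notMem_hyperfilter_of_finite (finite_singleton n)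
  rw [if_neg h1, mul_zero, add_zero]
  by_cases hn : n ∈ g.support
  · rw [Finset.sum_eq_single n]
    · simp
    · intro k _ hk
      simp [hk]
    · exact fun h => absurd hn h
  · rw [(FreeAbelianGroup.notMem_support_iff n g).1 hn]
    refine Finset.sum_eq_zero fun k hk => ?_
    have : k ≠ n := fun h => hn (h ▸ hk)
    simp [this]

theorem eq_zero_of_chi {g : FreeAbelianGroup ℕ} {m : ℤ} (hg : g = 0)
    (h : FreeAbelianGroup.lift (chi W univ) (Phi W (g, m)) = 0) : Phi W (g, m) = 0 := by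
  classical
  subst hg
  rw [lift_chi_Phi] at h
  simp only [FreeAbelianGroup.support_zero, Finset.sum_empty, zero_add] at h
  rw [if_pos (Ultrafilter.mem_coe.1 univ_mem), mul_one] at h
  rw [h]
  exact map_zero _

theorem exists_disjoint (S : ℕ → Finset ℕ) (P : ℕ → Prop) (hP : ∀ᶠ i in atTop, P i)
    (hS : ∀ n, ∀ᶠ i in atTop, n ∉ S i) :
    ∃ f : ℕ → ℕ, (∀ m, P (f m)) ∧ ∀ m n, m ≠ n → Disjoint (S (f m)) (S (f n)) := by
  classical
  obtain ⟨f, hf1, hf2⟩ := exists_seq_of_forall_finset_exists P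
    (fun i j => Disjoint (S i) (S j)) (by
      intro s _
      have h1 : ∀ᶠ i in atTop, ∀ n ∈ s.biUnion S, n ∉ S i :=
        (eventually_all_finset _).2 fun n _ => hS n
      obtain ⟨y, hy1, hy2⟩ := (hP.and h1).exists
      refine ⟨y, hy1, fun x hx => ?_⟩
      rw [Finset.disjoint_left]
      intro n hn
      exact hy2 n (Finset.mem_biUnion.2 ⟨x, hx, hn⟩))
  refine ⟨f, hf1, fun m n hmn => ?_⟩
  rcases lt_or_gt_of_ne hmn with h | h
  · exact hf2 m n h
  · exact (hf2 n m h).symm

/-- No sequence of nonzero elements of the subgroup tends to zero. -/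
theorem no_null_seq (b : ℕ → FreeAbelianGroup (XX W Yp)) (hb : ∀ i, b i ∈ Hs W)
    (hne : ∀ᶠ i in atTop, b i ≠ 0) (hlim : Tendsto b atTop (𝓝 0)) : False := by
  classical
  choose g m hgm using fun i => exists_rep (hb i)
  have hev : ∀ A : Set ℕ, ∀ᶠ i in atTop, FreeAbelianGroup.lift (chi W A) (b i) = 0 := by
    intro A
    have h1 := ((continuous_lift (continuous_chi (W := W) A)).tendsto 0).comp hlim
    rw [map_zero] at h1
    exact h1.eventually ((isOpen_discrete ({0} : Set ℤ)).mem_nhds rfl)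
  have hS : ∀ n, ∀ᶠ i in atTop, n ∉ (g i).support := by
    intro n
    filter_upwards [hev {n}] with i hi
    rw [hgm i, lift_chi_singleton] at hi
    exact (FreeAbelianGroup.notMem_support_iff n _).2 hi
  have hne' : ∀ i, (b i ≠ 0 ∧ FreeAbelianGroup.lift (chi W univ) (b i) = 0) →
      ((g i).support).Nonempty := by
    rintro i ⟨h1, h2⟩
    rw [FreeAbelianGroup.nonempty_support_iff]
    intro h3
    apply h1
    rw [hgm i] at h2 ⊢
    exact eq_zero_of_chi h3 h2
  obtain ⟨f, hf1, hf2⟩ := exists_disjoint (fun i => (g i).support)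
    (fun i => b i ≠ 0 ∧ FreeAbelianGroup.lift (chi W univ) (b i) = 0) (hne.and (hev univ)) hS
  choose v hv using fun m => hne' (f m) (hf1 m)
  have hvinj : ∀ m n, v m ∈ (g (f n)).support → m = n := by
    intro m n h
    by_contra hmn
    exact Finset.disjoint_left.1 (hf2 m n hmn) (hv m) h
  have hfinj : Function.Injective f := by
    intro m n hmn
    apply hvinj m n
    rw [← hmn]
    exact hv m
  obtain ⟨par, hpar, hparp⟩ : ∃ par : Set ℕ, par.Infinite ∧ v '' par ∉ hyperfilter ℕ := by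
    by_contra hcon
    push Not at hcon
    have h1 := hcon {n | Even n} (by
      refine infinite_of_injective_forall_mem (f := fun n : ℕ => 2 * n) ?_ ?_
      · intro a b hab
        simp only at hab
        omega
      · intro n
        exact ⟨n, by ring⟩)
    have h2 := hcon {n | ¬ Even n} (by
      refine infinite_of_injective_forall_mem (f := fun n : ℕ => 2 * n + 1) ?_ ?_
      · intro a b hab
        simp only at hab
        omega
      · intro n
        simp)
    have h3 : v '' {n | Even n} ∩ v '' {n | ¬ Even n} = ∅ := by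
      rw [eq_empty_iff_forall_notMem]
      rintro _ ⟨⟨m, hm, rfl⟩, ⟨n, hn, hnm⟩⟩
      have : n = m := hvinj n m (by rw [hnm]; exact hv m)
      subst this
      exact hn hm
    have h4 : v '' {n | Even n} ∩ v '' {n | ¬ Even n} ∈ hyperfilter ℕ := inter_mem h1 h2
    rw [h3] at h4
    exact (Ultrafilter.empty_notMem (f := hyperfilter ℕ)) h4
  obtain ⟨N, hN⟩ := eventually_atTop.1 (hev (v '' par))
  obtain ⟨_, ⟨m, hm, rfl⟩, hmN⟩ := (hpar.image hfinj.injOn).exists_gt N
  have h5 := hN (f m) hmN.le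
  rw [hgm (f m), lift_chi_Phi, if_neg hparp, mul_zero, add_zero,
    Finset.sum_eq_single (v m)] at h5
  · rw [if_pos ⟨m, hm, rfl⟩, mul_one] at h5
    exact (FreeAbelianGroup.mem_support_iff _ _).1 (hv m) h5
  · rintro k hk hkm
    rw [if_neg, mul_zero]
    rintro ⟨n, _, rfl⟩
    exact hkm (by rw [hvinj n m hk])
  · intro h
    exact absurd (hv m) h

theorem finite_of_compact (K : Set (Hs W)) (hK : IsCompact K) : K.Finite := by
  classical
  by_contra hinf
  have hinf' : K.Infinite := hinf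
  have : CompactSpace K := isCompact_iff_compactSpace.1 hK
  have : Infinite K := hinf'.to_subtype
  let Ψ : K → (ℕ → ℤ) × ℤ := fun k =>
    (fun n => FreeAbelianGroup.lift (chi W {n}) k.1.1, FreeAbelianGroup.lift (chi W univ) k.1.1)
  have hcc : Continuous (fun k : K => k.1.1) := continuous_subtype_val.comp continuous_subtype_val
  have hc : Continuous Ψ := by
    refine Continuous.prodMk (continuous_pi fun n => ?_) ?_
    · exact (continuous_lift (continuous_chi {n})).comp hcc
    · exact (continuous_lift (continuous_chi univ)).comp hcc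
  have hinj : Function.Injective Ψ := by
    intro k k' h
    have h1 : k.1.1 - k'.1.1 ∈ Hs W := (Hs W).sub_mem k.1.2 k'.1.2
    obtain ⟨g, m, hgm⟩ := exists_rep h1
    have h2 : ∀ n, FreeAbelianGroup.coeff n g = 0 := by
      intro n
      rw [← lift_chi_singleton (W := W) n g m, ← hgm, map_sub, sub_eq_zero]
      exact congrFun (congrArg Prod.fst h) n
    have h3 : g = 0 := by
      rw [← FreeAbelianGroup.support_eq_empty, Finset.eq_empty_iff_forall_notMem]
      intro n
      exact (FreeAbelianGroup.notMem_support_iff n g).2 (h2 n)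
    have h4 : FreeAbelianGroup.lift (chi W univ) (Phi W (g, m)) = 0 := by
      rw [← hgm, map_sub, sub_eq_zero]
      exact congrArg Prod.snd h
    have h5 := eq_zero_of_chi h3 h4
    rw [← hgm, sub_eq_zero] at h5
    exact Subtype.ext (Subtype.ext h5)
  have hemb := (hc.isClosedEmbedding hinj).isEmbedding
  have := hemb.metrizableSpace
  let e := Infinite.natEmbedding K
  obtain ⟨a, -, φ, hφ, hlim⟩ := (isCompact_univ : IsCompact (univ : Set K)).tendsto_subseq
    (x := fun n => e n) (fun _ => trivial)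
  have hyinj : Function.Injective (fun n => e (φ n)) := e.injective.comp hφ.injective
  refine no_null_seq (fun i => (e (φ i)).1.1 - a.1.1)
    (fun i => (Hs W).sub_mem (e (φ i)).1.2 a.1.2) ?_ ?_
  · have h1 : ∀ᶠ n in cofinite, e (φ n) ≠ a :=
      hyinj.tendsto_cofinite.eventually (finite_singleton a).compl_mem_cofinite
    rw [Nat.cofinite_eq_atTop] at h1
    filter_upwards [h1] with n hn h2
    rw [sub_eq_zero] at h2
    exact hn (Subtype.ext (Subtype.ext h2))
  · have h2 : Tendsto (fun i => (e (φ i)).1.1) atTop (𝓝 a.1.1) := (hcc.tendsto a).comp hlim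
    have h3 := h2.sub_const a.1.1
    rwa [sub_self] at h3

theorem not_isKR_Hs : ¬ IsKR (Hs W) := by
  classical
  intro h
  let f : Hs W → ℝ := fun g => if g = 0 then 1 else 0
  have hc : Continuous f := h f fun K hK => (finite_of_compact K hK).continuousOn f
  have ho : IsOpen ({0} : Set (Hs W)) := by
    have h1 : ({0} : Set (Hs W)) = f ⁻¹' {x | (1 / 2 : ℝ) < x} := by
      ext g
      simp only [mem_singleton_iff, mem_preimage, mem_ofPred_eq, f]
      split_ifs with h2
      · simp [h2]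
        norm_num
      · simp [h2]
    rw [h1]
    exact (isOpen_lt continuous_const continuous_id).preimage hc
  let s : ℕ → Hs W := fun n => ⟨FreeAbelianGroup.of (ptn n) - FreeAbelianGroup.of ptp,
    (Hs W).sub_mem (of_pt_mem _) (of_pt_mem _)⟩
  have hpt : Continuous (pt : Yp → XX W Yp) := by
    unfold pt
    exact Continuous.subtype_mk (continuous_const.prodMk continuous_subtype_val) _
  have hs : Tendsto s (hyperfilter ℕ : Filter ℕ) (𝓝 0) := by
    rw [tendsto_subtype_rng]
    have h1 : Tendsto (fun n : ℕ => (⟨pure n, Or.inl ⟨n, rfl⟩⟩ : Yp)) (hyperfilter ℕ : Filter ℕ)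
        (𝓝 ⟨hyperfilter ℕ, Or.inr rfl⟩) := by
      rw [tendsto_subtype_rng]
      exact Ultrafilter.tendsto_pure_self _
    have h2 : Tendsto (fun n : ℕ => FreeAbelianGroup.of (ptn n : XX W Yp))
        (hyperfilter ℕ : Filter ℕ) (𝓝 (FreeAbelianGroup.of ptp)) :=
      (((continuous_of (XX W Yp)).comp hpt).tendsto _).comp h1
    have h3 := h2.sub_const (FreeAbelianGroup.of (ptp : XX W Yp))
    rw [sub_self] at h3
    exact h3
  have h4 : ∀ᶠ n in (hyperfilter ℕ : Filter ℕ), s n = 0 := hs.eventually (ho.mem_nhds rfl)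
  obtain ⟨n, hn⟩ := h4.exists
  have h5 : FreeAbelianGroup.of (ptn n : XX W Yp) = FreeAbelianGroup.of ptp :=
    sub_eq_zero.1 (congrArg Subtype.val hn)
  have h6 : (ptn n : XX W Yp) = ptp := FreeAbelianGroup.of_injective h5
  have h7 : (pure n : Ultrafilter ℕ) = hyperfilter ℕ := congrArg (fun x : XX W Yp => x.1.2) h6
  have h8 : ({n} : Set ℕ) ∉ hyperfilter ℕ := notMem_hyperfilter_of_finite (finite_singleton n)
  rw [← h7] at h8
  exact h8 (Ultrafilter.mem_pure.2 rfl)

end sub

section final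

attribute [local instance] freeTop

open Ordinal

/-- The ordinals up to the first uncountable one. -/
abbrev W1 : Type 1 := Set.Iic (Ordinal.omega 1 : Ordinal.{0})

theorem long_W1 : Long W1 := by
  have htop : ∀ a : W1, a < ⊤ ↔ a.1 < Ordinal.omega 1 := fun a => Iff.rfl
  refine ⟨fun s hs => ?_, fun a ha => ?_, ?_⟩
  · have h1 : ⨆ n, (s n).1 < Ordinal.omega 1 := Ordinal.iSup_lt_omega_one fun n => (htop _).1 (hs n)
    refine ⟨⟨⨆ n, (s n).1, h1.le⟩, h1, fun n => ?_⟩
    exact Ordinal.le_iSup (fun n => (s n).1) n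
  · have h1 : Order.succ a.1 < Ordinal.omega 1 :=
      (Cardinal.isSuccLimit_omega 1).succ_lt ((htop a).1 ha)
    exact ⟨⟨Order.succ a.1, h1.le⟩, Order.lt_succ a.1, h1⟩
  · exact ⟨⟨0, (Ordinal.omega_pos 1).le⟩, Ordinal.omega_pos 1⟩

instance compact_W1 : CompactSpace W1 := by
  rw [← isCompact_iff_compactSpace]
  have : (Set.Iic (Ordinal.omega 1 : Ordinal.{0})) = Set.Icc 0 (Ordinal.omega 1) := by
    ext x
    simp
  rw [this]
  exact isCompact_Icc

/-- There is a Tychonoff space `X` such that `A(X)` is a k_R-space with a closed subgroup that is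
not a k_R-space. -/
theorem result : ∃ (X : Type 1) (_ : TopologicalSpace X) (t : TopologicalSpace (FreeAbelianGroup X)),
    T35Space X ∧ IsFreeAbelianTopology t ∧ T2Space (FreeAbelianGroup X) ∧
    IsKR (FreeAbelianGroup X) ∧
    ∃ H : AddSubgroup (FreeAbelianGroup X), IsClosed (H : Set (FreeAbelianGroup X)) ∧ ¬ IsKR H :=
  ⟨XX W1 Yp, inferInstance, freeTop _, inferInstance, isFreeAbelianTopology _, inferInstance,
    isKR_free long_W1, Hs W1, isClosed_Hs, not_isKR_Hs⟩

end final

end Pool.Agent.Results.MP_ebea7e_gt.FreeAbelianSubgroup
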